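import Pool.Agent.H794R2.CorF
import Pool.Agent.Helper292.ForceCH

/-!
The class of Corson compact spaces is, consistently, not stable under isomorphisms of spaces of
continuous functions: under the continuum hypothesis, which can be forced, there are a Corson
compact space `L` and a separable compact space `K` which is not Corson compact such that `C(K)`
and `C(L)` are linearly homeomorphic; in particular `C(K)` embeds isomorphically into `C(L)`.
-/

universe v

namespace Pool.Agent.Results.MP_9ea9ae_an.ConsistentlyFails

open H794R2.Cor

/-- (1) The continuum hypothesis can be forced, with `ω₁` preserved. (2) Under the continuum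
hypothesis there are compact Hausdorff spaces `K`, `L` such that `L` is Corson compact, `K` is
separable and not Corson compact, and `C(K)` is linearly homeomorphic to `C(L)`. -/
theorem result :
    (∃ (P : Type) (_ : Preorder P), Nonempty P ∧ ∀ p : P,
      p ∈ Pool.Agent.Helper292.ForceCH.OmegaOnePreserved P ∧
      p ∈ Pool.Agent.Helper292.ForceCH.CHHolds P) ∧
    (Cardinal.aleph 1 = Cardinal.continuum.{0} →
      ∃ (K L : Type) (_ : TopologicalSpace K) (_ : TopologicalSpace L)
        (_ : CompactSpace K) (_ : T2Space K) (_ : CompactSpace L) (_ : T2Space L),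
        IsCorsonCompact.{0, 0} L ∧ ¬ IsCorsonCompact.{0, v} K ∧
        TopologicalSpace.SeparableSpace K ∧ Nonempty (C(K, ℝ) ≃L[ℝ] C(L, ℝ))) := by
  refine ⟨?_, ?_⟩
  · obtain ⟨P, i, h1, h2⟩ := Pool.Agent.Helper292.ForceCH.exists_forcing
    exact ⟨P, i, h1, fun p => ⟨(h2 p).1, (h2 p).2.2⟩⟩
  · intro hCH
    obtain ⟨Q, h1, h2⟩ := exists_Q hCH
    exact main h1 h2

end Pool.Agent.Results.MP_9ea9ae_an.ConsistentlyFails
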